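import Mathlib

set_option autoImplicit false

namespace Pool.Agent.H42

open Filter

variable {G : Type*} [Group G]

/-- conjugation by `c ^ k` -/
def ph (c : G) (k : ℤ) (y : G) : G := c ^ k * y * (c ^ k)⁻¹

lemma ph_mul (c : G) (k : ℤ) (x y : G) : ph c k (x * y) = ph c k x * ph c k y := by
  simp [ph, mul_assoc]

lemma ph_one (c : G) (k : ℤ) : ph c k 1 = 1 := by
  simp [ph]

lemma ph_inv (c : G) (k : ℤ) (x : G) : ph c k x⁻¹ = (ph c k x)⁻¹ := by
  simp [ph, mul_assoc]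

lemma ph_ph (c : G) (k l : ℤ) (x : G) : ph c k (ph c l x) = ph c (k + l) x := by
  simp [ph, zpow_add, mul_assoc]

lemma ph_zero (c : G) (x : G) : ph c 0 x = x := by
  simp [ph]

lemma ph_inj (c : G) (k : ℤ) {x y : G} (h : ph c k x = ph c k y) : x = y := by
  simpa [ph] using h

lemma ph_commute (c : G) (k : ℤ) {x y : G} : Commute (ph c k x) (ph c k y) ↔ Commute x y := by
  unfold Commute SemiconjBy
  rw [← ph_mul, ← ph_mul]
  exact ⟨fun h => ph_inj c k h, fun h => by rw [h]⟩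

lemma ph_pow (c : G) (k : ℤ) (x : G) (n : ℕ) : ph c k (x ^ n) = ph c k x ^ n := by
  simp [ph]

/-- regular element: its double coset `C v C` has unique exponents -/
def Reg (c v : G) : Prop := ∀ i j : ℤ, v * c ^ i = c ^ j * v → i = 0

lemma Reg.right {c v : G} (h : Reg c v) (hc : ∀ n : ℤ, c ^ n = 1 → n = 0) {i j : ℤ}
    (e : v * c ^ i = c ^ j * v) : j = 0 := by
  have h0 := h i j e
  subst h0
  apply hc
  have : c ^ j * v = 1 * v := by rw [← e]; simp
  exact mul_right_cancel this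

lemma Reg.unique {c v : G} (h : Reg c v) (hc : ∀ n : ℤ, c ^ n = 1 → n = 0) {a b a' b' : ℤ}
    (e : c ^ a * v * c ^ b = c ^ a' * v * c ^ b') : a = a' ∧ b = b' := by
  have e2 : v * c ^ (b - b') = c ^ (a' - a) * v := by
    rw [zpow_sub, zpow_sub]
    have : c ^ (-a) * (c ^ a * v * c ^ b) * c ^ (-b') = c ^ (-a) * (c ^ a' * v * c ^ b') * c ^ (-b') := by
      rw [e]
    have e3 : v * c ^ b * c ^ (-b') = c ^ (-a) * c ^ a' * v := by
      simpa [mul_assoc] using this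
    rw [zpow_neg, zpow_neg] at e3
    rw [← mul_assoc, e3]
    congr 1
    rw [← zpow_neg, ← zpow_add, ← zpow_add]
    congr 1
    ring
  have h1 := h _ _ e2
  have h2 := h.right hc e2
  omega

lemma zpow_conj {c t : G} {i j : ℤ} (h : t * c ^ i = c ^ j * t) (q : ℤ) :
    t * c ^ (i * q) = c ^ (j * q) * t := by
  have h1 : t * c ^ i * t⁻¹ = c ^ j := by rw [h]; simp
  have h2 : t * (c ^ i) ^ q * t⁻¹ = (c ^ j) ^ q := by
    rw [← h1]; simp
  rw [zpow_mul, zpow_mul, ← h2]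
  simp

/-- Non-regular elements lie in finitely many left cosets of `⟨c⟩`. -/
lemma nonreg_cover {c : G} (hc : ∀ n : ℤ, c ^ n = 1 → n = 0) {T : Set G} (hTf : T.Finite)
    (hT : ∀ g : G, ∃ t ∈ T, ∃ a b : ℤ, g = c ^ a * t * c ^ b) :
    ∃ F : Set G, F.Finite ∧ ∀ g, ¬ Reg c g → ∃ s ∈ F, ∃ b : ℤ, g = s * c ^ b := by
  classical
  have key : ∀ t : G, ∃ F : Set G, F.Finite ∧ (¬ Reg c t → ∀ a b : ℤ, ∃ s ∈ F, ∃ b' : ℤ,
      c ^ a * t * c ^ b = s * c ^ b') := by
    intro t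
    by_cases ht : Reg c t
    · exact ⟨∅, Set.finite_empty, fun h => absurd ht h⟩
    · unfold Reg at ht
      push Not at ht
      obtain ⟨i, j, h, hi⟩ := ht
      have hj : j ≠ 0 := by
        rintro rfl
        apply hi
        apply hc
        have : t * c ^ i = t * 1 := by rw [h]; simp
        exact mul_left_cancel this
      refine ⟨(fun r : ℤ => c ^ r * t) '' (Set.Ico 0 |j|), (Set.finite_Ico _ _).image _, ?_⟩
      intro _ a b
      refine ⟨c ^ (a % j) * t, ⟨a % j, ⟨Int.emod_nonneg _ hj, Int.emod_lt_abs _ hj⟩, rfl⟩,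
        i * (a / j) + b, ?_⟩
      have e1 : c ^ a = c ^ (a % j) * c ^ (j * (a / j)) := by
        rw [← zpow_add]
        congr 1
        exact (Int.emod_add_mul_ediv a j).symm
      rw [e1, mul_assoc (c ^ (a % j)), ← zpow_conj h, zpow_add]
      simp [mul_assoc]
  choose F hF1 hF2 using key
  refine ⟨⋃ t ∈ T, F t, hTf.biUnion (fun t _ => hF1 t), ?_⟩
  intro g hg
  obtain ⟨t, ht, a, b, rfl⟩ := hT g
  have hnt : ¬ Reg c t := by
    intro hr
    apply hg
    intro i j h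
    apply hr i j
    have e : c ^ a * (t * c ^ i) * c ^ b = c ^ a * (c ^ j * t) * c ^ b := by
      calc c ^ a * (t * c ^ i) * c ^ b = c ^ a * t * c ^ b * c ^ i := by
            simp only [mul_assoc]
            rw [← zpow_add, ← zpow_add, add_comm]
        _ = c ^ j * (c ^ a * t * c ^ b) := h
        _ = c ^ a * (c ^ j * t) * c ^ b := by
            simp only [← mul_assoc]
            rw [← zpow_add, ← zpow_add, add_comm]
    exact mul_left_cancel (mul_right_cancel e)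
  obtain ⟨s, hs, b', hb'⟩ := hF2 t hnt a b
  exact ⟨s, Set.mem_biUnion ht hs, b', hb'⟩

lemma nonreg_pow {c : G} (hc : ∀ n : ℤ, c ^ n = 1 → n = 0) {T : Set G} (hTf : T.Finite)
    (hT : ∀ g : G, ∃ t ∈ T, ∃ a b : ℤ, g = c ^ a * t * c ^ b) {u : G} (hu : ¬ Reg c u) :
    ∃ n : ℕ, 0 < n ∧ ∃ b : ℤ, u ^ n = c ^ b := by
  obtain ⟨F, hF, hcov⟩ := nonreg_cover hc hTf hT
  have hu' := hu
  unfold Reg at hu
  push Not at hu
  obtain ⟨i, j, h, hi⟩ := hu
  have hpow : ∀ n : ℕ, u ^ n * c ^ (i ^ n) = c ^ (j ^ n) * u ^ n := by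
    intro n
    induction n with
    | zero => simp
    | succ n ih =>
      have h1 := zpow_conj ih i
      have h2 := zpow_conj h (j ^ n)
      calc u ^ (n + 1) * c ^ (i ^ (n + 1)) = u * (u ^ n * c ^ (i ^ n * i)) := by
            rw [pow_succ', pow_succ, mul_assoc]
        _ = u * (c ^ (j ^ n * i) * u ^ n) := by rw [h1]
        _ = (u * c ^ (i * j ^ n)) * u ^ n := by rw [mul_comm (j ^ n) i, mul_assoc]
        _ = c ^ (j * j ^ n) * u * u ^ n := by rw [h2]
        _ = c ^ (j ^ (n + 1)) * u ^ (n + 1) := by rw [pow_succ' j, pow_succ' u, mul_assoc]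
  have hnr : ∀ n : ℕ, ¬ Reg c (u ^ n) := by
    intro n hr
    have h3 := hr _ _ (hpow n)
    exact hi (eq_zero_of_pow_eq_zero h3)
  choose s hs b hb using fun n => hcov _ (hnr n)
  have : Finite F := hF.to_subtype
  obtain ⟨x, y, hxy, he⟩ := Finite.exists_ne_map_eq_of_infinite (fun n : ℕ => (⟨s n, hs n⟩ : F))
  have he' : s x = s y := by simpa using he
  have main : ∀ x y : ℕ, x < y → s x = s y → ∃ n : ℕ, 0 < n ∧ ∃ b : ℤ, u ^ n = c ^ b := by
    intro x y hlt he'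
    refine ⟨y - x, by omega, b y - b x, ?_⟩
    have h4 : u ^ x * u ^ (y - x) = u ^ y := by
      rw [← pow_add]
      congr 1
      omega
    have h5 : u ^ (y - x) = (u ^ x)⁻¹ * u ^ y := by
      rw [← h4]; simp
    rw [h5, hb x, hb y, he']
    simp [zpow_sub]
    group
  rcases lt_or_gt_of_ne hxy with h6 | h6
  · exact main x y h6 he'
  · exact main y x h6 he'.symm

lemma Reg.conj {c : G} (hc : ∀ n : ℤ, c ^ n = 1 → n = 0) {T : Set G} (hTf : T.Finite)
    (hT : ∀ g : G, ∃ t ∈ T, ∃ a b : ℤ, g = c ^ a * t * c ^ b) {v : G} (hv : Reg c v)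
    {d : ℤ} (hd : d ≠ 0) : Reg c (v⁻¹ * c ^ d * v) := by
  by_contra hcon
  obtain ⟨n, hn, b, hb⟩ := nonreg_pow hc hTf hT hcon
  have h1 : (v⁻¹ * c ^ d * v) ^ n = v⁻¹ * c ^ (d * n) * v := by
    have : v⁻¹ * c ^ d * v = v⁻¹ * c ^ d * (v⁻¹)⁻¹ := by simp
    rw [this, conj_pow, inv_inv, zpow_mul]
    simp
  rw [h1] at hb
  have h2 : v * c ^ b = c ^ (d * n) * v := by
    rw [← hb]; simp [mul_assoc]
  have h3 := hv.right hc h2
  rcases mul_eq_zero.1 h3 with h4 | h4
  · exact hd h4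
  · omega

end Pool.Agent.H42
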