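import Mathlib
import Pool.Agent.H42.DCBasic

set_option autoImplicit false

namespace Pool.Agent.H42

open Filter

attribute [local instance] Ultrafilter.mul Ultrafilter.add Ultrafilter.semigroup
  Ultrafilter.addSemigroup

variable {G : Type*} [Group G]

lemma exists_idem_int : ∃ p : Ultrafilter ℤ, p + p = p ∧
    ∀ m : ℤ, ∀ᶠ n in (p : Filter ℤ), n ≠ m := by
  obtain ⟨p, hp, hpp⟩ := exists_idempotent_in_compact_add_subsemigroup
    (M := Ultrafilter ℤ) Ultrafilter.continuous_add_left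
    {U : Ultrafilter ℤ | ∀ m : ℤ, {n : ℤ | n ≠ m} ∈ U} (by
      refine ⟨hyperfilter ℤ, fun m => ?_⟩
      have h : ({m} : Set ℤ)ᶜ ∈ hyperfilter ℤ := (Set.finite_singleton m).compl_mem_hyperfilter
      exact h) (by
      have : {U : Ultrafilter ℤ | ∀ m : ℤ, {n : ℤ | n ≠ m} ∈ U}
          = ⋂ m : ℤ, {U : Ultrafilter ℤ | {n : ℤ | n ≠ m} ∈ U} := by
        ext U; simp
      rw [this]
      exact (isClosed_iInter fun m => ultrafilter_isClosed_basic _).isCompact) (by
      intro U _ V hV m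
      have : ∀ᶠ x in ((U + V : Ultrafilter ℤ) : Filter ℤ), x ≠ m := by
        rw [Ultrafilter.eventually_add]
        refine Eventually.of_forall fun a => ?_
        have h : ∀ᶠ b in (V : Filter ℤ), b ≠ m - a := hV (m - a)
        filter_upwards [h] with b hb hab
        exact hb (by omega)
      exact this)
  exact ⟨p, hpp, fun m => hp m⟩

/-- the ultrafilter avoids every left coset of `⟨c⟩` -/
def Av (c : G) (U : Ultrafilter G) : Prop :=
  ∀ s : G, ∀ᶠ x in (U : Filter G), ∀ b : ℤ, x ≠ s * c ^ b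

lemma exists_Av (c : G) (hinf : Infinite (G ⧸ Subgroup.zpowers c)) :
    ∃ U : Ultrafilter G, Av c U := by
  refine ⟨(hyperfilter (G ⧸ Subgroup.zpowers c)).map Quotient.out, fun s => ?_⟩
  rw [Ultrafilter.coe_map, eventually_map]
  have h : ({(QuotientGroup.mk s : G ⧸ Subgroup.zpowers c)} : Set _)ᶜ ∈
      hyperfilter (G ⧸ Subgroup.zpowers c) := (Set.finite_singleton _).compl_mem_hyperfilter
  have h' : ∀ᶠ q in (hyperfilter (G ⧸ Subgroup.zpowers c) : Filter _),
      q ≠ (QuotientGroup.mk s : G ⧸ Subgroup.zpowers c) := h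
  filter_upwards [h'] with q hq b hb
  apply hq
  rw [← Quotient.out_eq q]
  change (QuotientGroup.mk (Quotient.out q) : G ⧸ Subgroup.zpowers c) = _
  rw [hb, QuotientGroup.eq]
  refine ⟨-b, ?_⟩
  simp

lemma exists_V (c : G) (p : Ultrafilter ℤ) (hpp : p + p = p)
    (hinf : ∃ U : Ultrafilter G, Av c U) :
    ∃ V : Ultrafilter G, V * V = V ∧ (p.map (fun k : ℤ => c ^ k)) * V = V ∧ Av c V := by
  set P : Ultrafilter G := p.map (fun k : ℤ => c ^ k) with hP
  have hPev : ∀ Φ : G → Prop, (∀ᶠ x in (P : Filter G), Φ x) ↔ ∀ᶠ k in (p : Filter ℤ), Φ (c ^ k) := by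
    intro Φ
    rw [hP, Ultrafilter.coe_map, eventually_map]
  have hPP : P * P = P := by
    apply Ultrafilter.coe_inj.mp
    apply Filter.ext'
    intro Φ
    rw [Ultrafilter.eventually_mul, hPev, hPev]
    have : (∀ᶠ k in (p : Filter ℤ), Φ (c ^ k)) ↔
        ∀ᶠ k in ((p + p : Ultrafilter ℤ) : Filter ℤ), Φ (c ^ k) := by rw [hpp]
    rw [this, Ultrafilter.eventually_add]
    apply eventually_congr
    refine Eventually.of_forall fun a => ?_
    rw [hPev]
    simp only [zpow_add]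
  have hAvL : ∀ U V : Ultrafilter G, Av c V → Av c (U * V) := by
    intro U V hV s
    rw [Ultrafilter.eventually_mul]
    refine Eventually.of_forall fun a => ?_
    filter_upwards [hV (a⁻¹ * s)] with x hx b hb
    apply hx b
    rw [mul_assoc, ← hb]
    simp
  obtain ⟨W, hW, hWW⟩ := exists_idempotent_in_compact_subsemigroup
    (M := Ultrafilter G) Ultrafilter.continuous_mul_left
    {U : Ultrafilter G | U * P = U ∧ Av c U} (by
      obtain ⟨U, hU⟩ := hinf
      refine ⟨U * P, ?_, ?_⟩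
      · rw [mul_assoc, hPP]
      · intro s
        rw [Ultrafilter.eventually_mul]
        filter_upwards [hU s] with x hx
        rw [hPev]
        refine Eventually.of_forall fun k b hb => ?_
        apply hx (b - k)
        rw [zpow_sub, ← mul_assoc, ← hb]
        simp) (by
      have : {U : Ultrafilter G | U * P = U ∧ Av c U}
          = {U : Ultrafilter G | U * P = U} ∩
            ⋂ s : G, {U : Ultrafilter G | {x : G | ∀ b : ℤ, x ≠ s * c ^ b} ∈ U} := by
        ext U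
        simp only [Set.mem_inter_iff, Set.mem_iInter]
        rfl
      rw [this]
      exact ((isClosed_eq (Ultrafilter.continuous_mul_left P) continuous_id).inter
        (isClosed_iInter fun m => ultrafilter_isClosed_basic _)).isCompact) (by
      rintro U ⟨hU1, _⟩ V ⟨hV1, hV2⟩
      exact ⟨by rw [mul_assoc, hV1], hAvL _ _ hV2⟩)
  refine ⟨P * W, ?_, ?_, hAvL _ _ hW.2⟩
  · rw [mul_assoc, ← mul_assoc W, hW.1, hWW]
  · rw [← mul_assoc, hPP]

/-- The basic data extracted from the ultrafilter argument. -/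
lemma exists_data {c : G} (hc : ∀ n : ℤ, c ^ n = 1 → n = 0) {T : Set G} (hTf : T.Finite)
    (hT : ∀ g : G, ∃ t ∈ T, ∃ a b : ℤ, g = c ^ a * t * c ^ b)
    (hinf : Infinite (G ⧸ Subgroup.zpowers c)) :
    ∃ (v : G) (V : Ultrafilter G) (p r : Ultrafilter ℤ) (av : G → ℤ), Reg c v ∧
      (∀ Φ : G → Prop, (∀ᶠ x in (V : Filter G), Φ x) → 
        ∀ᶠ x in (V : Filter G), ∀ᶠ y in (V : Filter G), Φ (x * y)) ∧
      (∀ᶠ x in (V : Filter G), ∃ b : ℤ, x = c ^ (av x) * v * c ^ b) ∧
      (∀ x, ∀ a b : ℤ, x = c ^ a * v * c ^ b → av x = a) ∧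
      (∀ Φ : ℤ → Prop, (∀ᶠ n in (r : Filter ℤ), Φ n) ↔ ∀ᶠ x in (V : Filter G), Φ (av x)) ∧
      (∀ Φ : ℤ → Prop, (∀ᶠ n in (r : Filter ℤ), Φ n) ↔
        ∀ᶠ m in (p : Filter ℤ), ∀ᶠ n in (r : Filter ℤ), Φ (m + n)) ∧
      (∀ m : ℤ, ∀ᶠ n in (p : Filter ℤ), n ≠ m) ∧
      (∀ m : ℤ, ∀ᶠ n in (r : Filter ℤ), n ≠ m) := by
  classical
  obtain ⟨p, hpp, hpn⟩ := exists_idem_int
  obtain ⟨V, hVV, hPV, hAv⟩ := exists_V c p hpp (exists_Av c hinf)
  -- choose the type
  have h1 : ∃ t ∈ T, ∀ᶠ x in (V : Filter G), ∃ a b : ℤ, x = c ^ a * t * c ^ b := by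
    have h2 : (⋃ t ∈ T, {x : G | ∃ a b : ℤ, x = c ^ a * t * c ^ b}) ∈ V := by
      have : (⋃ t ∈ T, {x : G | ∃ a b : ℤ, x = c ^ a * t * c ^ b}) = Set.univ := by
        ext g
        obtain ⟨t, ht, a, b, h⟩ := hT g
        simp only [Set.mem_iUnion, Set.mem_univ, iff_true]
        exact ⟨t, ht, a, b, h⟩
      rw [this]
      exact univ_mem
    obtain ⟨t, ht, h3⟩ := (Ultrafilter.finite_biUnion_mem_iff hTf).1 h2
    exact ⟨t, ht, h3⟩
  obtain ⟨v, hvT, hv⟩ := h1
  have hreg : Reg c v := by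
    by_contra hnr
    obtain ⟨F, hF, hcov⟩ := nonreg_cover hc hTf hT
    have h4 : ∀ᶠ x in (V : Filter G), ∀ s ∈ F, ∀ b : ℤ, x ≠ s * c ^ b :=
      (Filter.eventually_all_finite hF).2 (fun s _ => hAv s)
    obtain ⟨x, ⟨a, b, hx⟩, hx2⟩ := (hv.and h4).exists
    have h5 : ¬ Reg c x := by
      intro hr
      apply hnr
      intro i j h
      apply hr i j
      rw [hx]
      calc c ^ a * v * c ^ b * c ^ i = c ^ a * (v * c ^ i) * c ^ b := by
            simp only [mul_assoc]
            rw [← zpow_add, ← zpow_add, add_comm]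
        _ = c ^ a * (c ^ j * v) * c ^ b := by rw [h]
        _ = c ^ j * (c ^ a * v * c ^ b) := by
            simp only [← mul_assoc]
            rw [← zpow_add, ← zpow_add, add_comm]
    obtain ⟨s, hs, b', hb'⟩ := hcov x h5
    exact hx2 s hs b' hb'
  set av : G → ℤ := fun x => if h : ∃ a b : ℤ, x = c ^ a * v * c ^ b then h.choose else 0 with hav
  have hav1 : ∀ x, ∀ a b : ℤ, x = c ^ a * v * c ^ b → av x = a := by
    intro x a b hx
    have hex : ∃ a b : ℤ, x = c ^ a * v * c ^ b := ⟨a, b, hx⟩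
    have : av x = hex.choose := by
      simp only [hav]
      rw [dif_pos hex]
    obtain ⟨b', hb'⟩ := hex.choose_spec
    rw [this]
    have hb2 : c ^ a * v * c ^ b = c ^ hex.choose * v * c ^ b' := hx.symm.trans hb'
    exact ((hreg.unique hc hb2).1).symm
  have hV1 : ∀ᶠ x in (V : Filter G), ∃ b : ℤ, x = c ^ (av x) * v * c ^ b := by
    filter_upwards [hv] with x hx
    obtain ⟨a, b, hx⟩ := hx
    exact ⟨b, by rw [hav1 x a b hx]; exact hx⟩
  have hPev : ∀ Φ : G → Prop,
      (∀ᶠ x in ((p.map (fun k : ℤ => c ^ k) : Ultrafilter G) : Filter G), Φ x) ↔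
      ∀ᶠ k in (p : Filter ℤ), Φ (c ^ k) := by
    intro Φ
    rw [Ultrafilter.coe_map, eventually_map]
  have hr : ∀ Φ : ℤ → Prop, (∀ᶠ n in ((V.map av : Ultrafilter ℤ) : Filter ℤ), Φ n) ↔
      ∀ᶠ x in (V : Filter G), Φ (av x) := by
    intro Φ
    rw [Ultrafilter.coe_map, eventually_map]
  have hpr : ∀ Φ : ℤ → Prop, (∀ᶠ n in ((V.map av : Ultrafilter ℤ) : Filter ℤ), Φ n) ↔
        ∀ᶠ m in (p : Filter ℤ), ∀ᶠ n in ((V.map av : Ultrafilter ℤ) : Filter ℤ), Φ (m + n) := by
    intro Φ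
    rw [hr]
    have h1 : (∀ᶠ x in (V : Filter G), Φ (av x)) ↔
        ∀ᶠ x in (((p.map (fun k : ℤ => c ^ k)) * V : Ultrafilter G) : Filter G), Φ (av x) := by
      rw [hPV]
    rw [h1, Ultrafilter.eventually_mul, hPev]
    apply eventually_congr
    refine Eventually.of_forall fun m => ?_
    rw [hr]
    apply eventually_congr
    filter_upwards [hV1] with x hx
    obtain ⟨b, hx⟩ := hx
    have : av (c ^ m * x) = m + av x := by
      apply hav1 _ _ b
      calc c ^ m * x = c ^ m * (c ^ (av x) * v * c ^ b) := congrArg _ hx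
        _ = c ^ (m + av x) * v * c ^ b := by rw [zpow_add]; simp only [mul_assoc]
    rw [this]
  refine ⟨v, V, p, V.map av, av, hreg, ?_, hV1, hav1, hr, hpr, hpn, ?_⟩
  · intro Φ hΦ
    rw [← Ultrafilter.eventually_mul, hVV]
    exact hΦ
  · intro m
    by_contra hcon
    rw [Filter.not_eventually] at hcon
    have h1 : ∀ᶠ n in ((V.map av : Ultrafilter ℤ) : Filter ℤ), n = m := by
      have := (Ultrafilter.frequently_iff_eventually).1 hcon
      filter_upwards [this] with n hn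
      exact not_not.1 hn
    have h2 := (hpr _).1 h1
    have h3 : ∀ᶠ k in (p : Filter ℤ), k = 0 := by
      filter_upwards [h2] with k hk
      obtain ⟨n, hn1, hn2⟩ := (hk.and h1).exists
      omega
    obtain ⟨k, hk1, hk2⟩ := (h3.and (hpn 0)).exists
    exact hk2 hk1

end Pool.Agent.H42
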