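import Mathlib
import Pool.Agent.H42.DCUltra

set_option autoImplicit false

namespace Pool.Agent.H42

open Filter

variable {G : Type*} [Group G]

def Rel (c v : G) (k P Q : ℤ) : Prop := v * c ^ k * v = c ^ P * v * c ^ Q

lemma Rel.key4 {c v : G} {k l P Q P' Q' : ℤ} (hk : Rel c v k P Q) (hl : Rel c v l P' Q') :
    c ^ (l - k) * v * c ^ (k - (P' + Q')) * v * c ^ (l - k) = v * c ^ (l - (P + Q)) * v := by
  unfold Rel at hk hl
  have h1 : (v * c ^ l * v) * c ^ (k - (P' + Q')) * (v * c ^ l * v)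
      = c ^ P * (c ^ P' * v * c ^ Q') * c ^ Q := by
    calc (v * c ^ l * v) * c ^ (k - (P' + Q')) * (v * c ^ l * v)
        = (c ^ P' * v * c ^ Q') * c ^ (k - (P' + Q')) * (c ^ P' * v * c ^ Q') := by rw [hl]
      _ = c ^ P' * (v * c ^ k * v) * c ^ Q' := by group
      _ = c ^ P' * (c ^ P * v * c ^ Q) * c ^ Q' := by rw [hk]
      _ = c ^ P * (c ^ P' * v * c ^ Q') * c ^ Q := by group
  have h2 : (v * c ^ k * v) * c ^ (l - (P + Q)) * (v * c ^ k * v)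
      = c ^ P * (c ^ P' * v * c ^ Q') * c ^ Q := by
    calc (v * c ^ k * v) * c ^ (l - (P + Q)) * (v * c ^ k * v)
        = (c ^ P * v * c ^ Q) * c ^ (l - (P + Q)) * (c ^ P * v * c ^ Q) := by rw [hk]
      _ = c ^ P * (v * c ^ l * v) * c ^ Q := by group
      _ = c ^ P * (c ^ P' * v * c ^ Q') * c ^ Q := by rw [hl]
  have h3 := h1.trans h2.symm
  calc c ^ (l - k) * v * c ^ (k - (P' + Q')) * v * c ^ (l - k)
      = c ^ (-k) * v⁻¹ * ((v * c ^ l * v) * c ^ (k - (P' + Q')) * (v * c ^ l * v)) * v⁻¹ * c ^ (-k) := by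
        group
    _ = c ^ (-k) * v⁻¹ * ((v * c ^ k * v) * c ^ (l - (P + Q)) * (v * c ^ k * v)) * v⁻¹ * c ^ (-k) := by
        rw [h3]
    _ = v * c ^ (l - (P + Q)) * v := by group

/-- parallelogram rigidity -/
lemma Rel.quad {c v : G} (hc : ∀ n : ℤ, c ^ n = 1 → n = 0) {T : Set G} (hTf : T.Finite)
    (hT : ∀ g : G, ∃ t ∈ T, ∃ a b : ℤ, g = c ^ a * t * c ^ b) (hv : Reg c v)
    {k l k' l' P Q P' Q' P1 Q1 P1' Q1' : ℤ} (hk : Rel c v k P Q) (hl : Rel c v l P' Q')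
    (hk1 : Rel c v k' P1 Q1) (hl1 : Rel c v l' P1' Q1') (hd : l - k = l' - k') (hne : l ≠ k) :
    P + Q - k = P1 + Q1 - k' := by
  have e1 := hk.key4 hl
  have e2 := hk1.key4 hl1
  rw [← hd] at e2
  set d := l - k with hddef
  have hd0 : d ≠ 0 := by omega
  have hreg := Reg.conj hc hTf hT hv hd0
  -- α c^i β = c^j
  have f1 : (v⁻¹ * c ^ d * v) * c ^ (k - (P' + Q')) * (v * c ^ d * v⁻¹) = c ^ (l - (P + Q)) := by
    calc (v⁻¹ * c ^ d * v) * c ^ (k - (P' + Q')) * (v * c ^ d * v⁻¹)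
        = v⁻¹ * (c ^ d * v * c ^ (k - (P' + Q')) * v * c ^ d) * v⁻¹ := by group
      _ = v⁻¹ * (v * c ^ (l - (P + Q)) * v) * v⁻¹ := by rw [e1]
      _ = c ^ (l - (P + Q)) := by group
  have f2 : (v⁻¹ * c ^ d * v) * c ^ (k' - (P1' + Q1')) * (v * c ^ d * v⁻¹) = c ^ (l' - (P1 + Q1)) := by
    calc (v⁻¹ * c ^ d * v) * c ^ (k' - (P1' + Q1')) * (v * c ^ d * v⁻¹)
        = v⁻¹ * (c ^ d * v * c ^ (k' - (P1' + Q1')) * v * c ^ d) * v⁻¹ := by group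
      _ = v⁻¹ * (v * c ^ (l' - (P1 + Q1)) * v) * v⁻¹ := by rw [e2]
      _ = c ^ (l' - (P1 + Q1)) := by group
  set α := v⁻¹ * c ^ d * v with hα
  set β := v * c ^ d * v⁻¹ with hβ
  have f3 : α * c ^ ((k' - (P1' + Q1')) - (k - (P' + Q'))) =
      c ^ ((l' - (P1 + Q1)) - (l - (P + Q))) * α := by
    have g1 : β = c ^ (-(k - (P' + Q'))) * α⁻¹ * c ^ (l - (P + Q)) := by
      rw [← f1]; group
    rw [g1] at f2
    calc α * c ^ ((k' - (P1' + Q1')) - (k - (P' + Q')))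
        = (α * c ^ (k' - (P1' + Q1')) * (c ^ (-(k - (P' + Q'))) * α⁻¹ * c ^ (l - (P + Q)))) *
            c ^ (-(l - (P + Q))) * α := by group
      _ = c ^ (l' - (P1 + Q1)) * c ^ (-(l - (P + Q))) * α := by rw [f2]
      _ = c ^ ((l' - (P1 + Q1)) - (l - (P + Q))) * α := by group
  have f4 := hreg.right hc f3
  omega

/-- abstract combinatorial lemma: constant value along `r` with `p + r = r`. -/
lemma exists_const {K : ℤ → Prop} {f : ℤ → ℤ}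
    (H : ∀ k l k' l' : ℤ, K k → K l → K k' → K l' → l - k = l' - k' → l ≠ k → f k = f k')
    {p r : Ultrafilter ℤ}
    (hpr : ∀ Φ : ℤ → Prop, (∀ᶠ n in (r : Filter ℤ), Φ n) ↔
        ∀ᶠ m in (p : Filter ℤ), ∀ᶠ n in (r : Filter ℤ), Φ (m + n))
    (hp : ∀ m : ℤ, ∀ᶠ n in (p : Filter ℤ), n ≠ m)
    (hr : ∀ m : ℤ, ∀ᶠ n in (r : Filter ℤ), n ≠ m) :
    ∃ σ : ℤ, ∀ b : ℤ, (∀ᶠ n in (r : Filter ℤ), K (b + n)) →
      ∀ᶠ n in (r : Filter ℤ), K (b + n) ∧ f (b + n) = σ := by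
  by_cases hex : ∃ b₀ : ℤ, (∀ᶠ n in (r : Filter ℤ), K (b₀ + n))
  swap
  · exact ⟨0, fun b hb => absurd ⟨b, hb⟩ hex⟩
  obtain ⟨b₀, hb₀⟩ := hex
  have hG : ∀ b : ℤ, (∀ᶠ n in (r : Filter ℤ), K (b + n)) →
      ∀ᶠ m in (p : Filter ℤ), ∀ᶠ n in (r : Filter ℤ), K (b + m + n) := by
    intro b hb
    have := (hpr _).1 hb
    simpa only [add_assoc] using this
  have D1 : ∀ b b' : ℤ, (∀ᶠ n in (r : Filter ℤ), K (b + n)) →
      (∀ᶠ n in (r : Filter ℤ), K (b' + n)) →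
      ∀ᶠ m in (p : Filter ℤ), ∀ᶠ n in (r : Filter ℤ), ∀ᶠ n' in (r : Filter ℤ),
        f (b + m + n) = f (b' + m + n') := by
    intro b b' hb hb'
    filter_upwards [hG b hb, hG b' hb'] with m hm1 hm2
    obtain ⟨m', ⟨hm1', hm2'⟩, hne⟩ := (((hG b hb).and (hG b' hb')).and (hp m)).exists
    filter_upwards [hm1, hm1'] with n hn1 hn2
    filter_upwards [hm2, hm2'] with n' hn1' hn2'
    exact H _ _ _ _ hn1 hn2 hn1' hn2' (by ring) (by intro h; apply hne; linarith)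
  have hG0 := hG b₀ hb₀
  have D2 : ∀ m m' : ℤ, (∀ᶠ n in (r : Filter ℤ), K (b₀ + m + n)) →
      (∀ᶠ n in (r : Filter ℤ), K (b₀ + m' + n)) →
      ∀ᶠ n in (r : Filter ℤ), f (b₀ + m + n) = f (b₀ + m' + n) := by
    intro m m' hm hm'
    filter_upwards [hm, hm'] with n hn hn'
    obtain ⟨n2, ⟨hn2, hn2'⟩, hne⟩ := ((hm.and hm').and (hr n)).exists
    exact H _ _ _ _ hn hn2 hn' hn2' (by ring) (by intro h; apply hne; linarith)
  obtain ⟨m₀, hm₀, hD⟩ := (hG0.and (D1 b₀ b₀ hb₀ hb₀)).exists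
  obtain ⟨n₀, hn₀⟩ := hD.exists
  refine ⟨f (b₀ + m₀ + n₀), fun b hb => ?_⟩
  have h1 : ∀ᶠ m in (p : Filter ℤ), ∀ᶠ n in (r : Filter ℤ),
      f (b + m + n) = f (b₀ + m₀ + n₀) := by
    filter_upwards [D1 b b₀ hb hb₀, hG0] with m hm hm2
    filter_upwards [hm] with n hn
    obtain ⟨n', ⟨h2, h3⟩, h4⟩ := ((hn.and (D2 m m₀ hm2 hm₀)).and hn₀).exists
    rw [h2, h3, h4]
  have h2 : ∀ᶠ n in (r : Filter ℤ), f (b + n) = f (b₀ + m₀ + n₀) := by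
    rw [hpr]
    simpa only [add_assoc] using h1
  exact hb.and h2

/-- constant defect along an ultrafilter `r` with `p + r = r`. -/
lemma exists_sigma {c v : G} (hc : ∀ n : ℤ, c ^ n = 1 → n = 0) {T : Set G} (hTf : T.Finite)
    (hT : ∀ g : G, ∃ t ∈ T, ∃ a b : ℤ, g = c ^ a * t * c ^ b) (hv : Reg c v)
    {p r : Ultrafilter ℤ}
    (hpr : ∀ Φ : ℤ → Prop, (∀ᶠ n in (r : Filter ℤ), Φ n) ↔
        ∀ᶠ m in (p : Filter ℤ), ∀ᶠ n in (r : Filter ℤ), Φ (m + n))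
    (hp : ∀ m : ℤ, ∀ᶠ n in (p : Filter ℤ), n ≠ m)
    (hr : ∀ m : ℤ, ∀ᶠ n in (r : Filter ℤ), n ≠ m) :
    ∃ σ : ℤ, ∀ b : ℤ, (∀ᶠ n in (r : Filter ℤ), ∃ P Q, Rel c v (b + n) P Q) →
      ∀ᶠ n in (r : Filter ℤ), ∃ P Q, Rel c v (b + n) P Q ∧ P + Q = (b + n) + σ := by
  classical
  set f : ℤ → ℤ := fun k => if h : ∃ P Q, Rel c v k P Q then
    h.choose + h.choose_spec.choose - k else 0 with hf
  have hfk : ∀ k, (∃ P Q, Rel c v k P Q) → ∃ P Q, Rel c v k P Q ∧ f k = P + Q - k := by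
    intro k h
    refine ⟨h.choose, h.choose_spec.choose, h.choose_spec.choose_spec, ?_⟩
    simp only [hf]
    rw [dif_pos h]
  obtain ⟨σ, hσ⟩ := exists_const (K := fun k => ∃ P Q, Rel c v k P Q) (f := f) (by
    intro k l k' l' hk hl hk' hl' hd hne
    obtain ⟨P, Q, h1, h1f⟩ := hfk k hk
    obtain ⟨P', Q', h2⟩ := hl
    obtain ⟨P1, Q1, h3, h3f⟩ := hfk k' hk'
    obtain ⟨P1', Q1', h4⟩ := hl'
    rw [h1f, h3f]
    exact Rel.quad hc hTf hT hv h1 h2 h3 h4 hd hne) hpr hp hr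
  refine ⟨σ, fun b hb => ?_⟩
  filter_upwards [hσ b hb] with n hn
  obtain ⟨h1, h2⟩ := hn
  obtain ⟨P, Q, h3, h4⟩ := hfk _ h1
  exact ⟨P, Q, h3, by rw [h4] at h2; linarith⟩

end Pool.Agent.H42
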