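import Mathlib
import Pool.Agent.H42.DCSigma

set_option autoImplicit false

namespace Pool.Agent.H42

open Filter

variable {G : Type*} [Group G]

lemma Rel_iff_ph {c w : G} {k P : ℤ} : Rel c w k P (k - P) ↔ w * ph c k w = ph c P w := by
  unfold Rel ph
  constructor
  · intro h
    calc w * (c ^ k * w * (c ^ k)⁻¹) = (w * c ^ k * w) * (c ^ k)⁻¹ := by group
      _ = (c ^ P * w * c ^ (k - P)) * (c ^ k)⁻¹ := by rw [h]
      _ = c ^ P * w * (c ^ P)⁻¹ := by group
  · intro h
    calc w * c ^ k * w = (w * (c ^ k * w * (c ^ k)⁻¹)) * c ^ k := by group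
      _ = (c ^ P * w * (c ^ P)⁻¹) * c ^ k := by rw [h]
      _ = c ^ P * w * c ^ (k - P) := by group

lemma comm_of_two {c w : G} {k l P P' : ℤ} (hk : w * ph c k w = ph c P w)
    (hl : w * ph c l w = ph c P' w) : Commute (ph c k w) (ph c l w) := by
  have h1 : (w * ph c l w) * ph c k (w * ph c l w) = ph c (P + P') w := by
    rw [hl, ph_ph, add_comm k P', ← ph_ph, ← ph_mul, hk, ph_ph, add_comm]
  have h2 : (w * ph c k w) * ph c l (w * ph c k w) = ph c (P + P') w := by
    rw [hk, ph_ph, add_comm l P, ← ph_ph, ← ph_mul, hl, ph_ph]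
  have h3 := h2.trans h1.symm
  rw [ph_mul, ph_mul, ph_ph, ph_ph, add_comm k l] at h3
  have h4 : w * (ph c k w * ph c l w) * ph c (l + k) w = w * (ph c l w * ph c k w) * ph c (l + k) w := by
    simpa only [mul_assoc] using h3
  exact mul_left_cancel (mul_right_cancel h4)

lemma reg_shift {c v : G} (hv : Reg c v) (s : ℤ) :
    Reg c (v * c ^ s) := by
  intro i j h
  apply hv i j
  have h2 : v * c ^ i * c ^ s = c ^ j * v * c ^ s := by
    calc v * c ^ i * c ^ s = v * c ^ s * c ^ i := by group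
      _ = c ^ j * (v * c ^ s) := h
      _ = c ^ j * v * c ^ s := by group
  exact mul_right_cancel h2

lemma exists_main_data {c : G} (hc : ∀ n : ℤ, c ^ n = 1 → n = 0) {T : Set G} (hTf : T.Finite)
    (hT : ∀ g : G, ∃ t ∈ T, ∃ a b : ℤ, g = c ^ a * t * c ^ b)
    (hinf : Infinite (G ⧸ Subgroup.zpowers c)) :
    ∃ (w : G) (p r : Ultrafilter ℤ), Reg c w ∧
      (∀ Φ : ℤ → Prop, (∀ᶠ n in (r : Filter ℤ), Φ n) ↔
        ∀ᶠ m in (p : Filter ℤ), ∀ᶠ n in (r : Filter ℤ), Φ (m + n)) ∧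
      (∀ m : ℤ, ∀ᶠ n in (p : Filter ℤ), n ≠ m) ∧
      (∀ᶠ k in (r : Filter ℤ), ∃ P : ℤ, w * ph c k w = ph c P w ∧ Commute w (ph c k w)) := by
  obtain ⟨v, V, p, r, av, hv, hVV, hVD, hav, hrV, hpr, hp, hr⟩ := exists_data hc hTf hT hinf
  obtain ⟨σ, hσ⟩ := exists_sigma hc hTf hT hv hpr hp hr
  set w : G := v * c ^ (-σ) with hw
  have hwreg : Reg c w := reg_shift hv _
  have hRel : ∀ k P Q : ℤ, Rel c w k P Q ↔ Rel c v (k - σ) P Q := by
    intro k P Q
    unfold Rel
    constructor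
    · intro h
      calc v * c ^ (k - σ) * v = (w * c ^ k * w) * c ^ σ := by rw [hw]; group
        _ = (c ^ P * w * c ^ Q) * c ^ σ := by rw [h]
        _ = c ^ P * v * c ^ Q := by rw [hw]; group
    · intro h
      calc w * c ^ k * w = (v * c ^ (k - σ) * v) * c ^ (-σ) := by rw [hw]; group
        _ = (c ^ P * v * c ^ Q) * c ^ (-σ) := by rw [h]
        _ = c ^ P * w * c ^ Q := by rw [hw]; group
  have hnorm : ∀ b : ℤ, (∀ᶠ n in (r : Filter ℤ), ∃ P Q, Rel c w (b + n) P Q) →
      ∀ᶠ n in (r : Filter ℤ), ∃ P, w * ph c (b + n) w = ph c P w := by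
    intro b hb
    have h1 : ∀ᶠ n in (r : Filter ℤ), ∃ P Q, Rel c v ((b - σ) + n) P Q := by
      filter_upwards [hb] with n hn
      obtain ⟨P, Q, h⟩ := hn
      refine ⟨P, Q, ?_⟩
      have := (hRel _ _ _).1 h
      rwa [show b + n - σ = b - σ + n by ring] at this
    filter_upwards [hσ _ h1] with n hn
    obtain ⟨P, Q, h2, h3⟩ := hn
    refine ⟨P, Rel_iff_ph.1 ?_⟩
    rw [hRel]
    have e1 : b + n - P = Q := by linarith
    rw [e1, show b + n - σ = b - σ + n by ring]
    exact h2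
  -- membership in the double coset, in terms of w
  have hD : ∀ᶠ x in (V : Filter G), ∃ b : ℤ, x = c ^ (av x) * w * c ^ b := by
    filter_upwards [hVD] with x hx
    obtain ⟨b, hb⟩ := hx
    refine ⟨b + σ, hb.trans ?_⟩
    rw [hw]; group
  have hang : ∀ x y : G, ∀ a b a' b' : ℤ, x = c ^ a * w * c ^ b → y = c ^ a' * w * c ^ b' →
      (∃ b : ℤ, x * y = c ^ (av (x * y)) * w * c ^ b) → ∃ P Q, Rel c w (b + a') P Q := by
    intro x y a b a' b' hx hy hxy
    obtain ⟨b'', h⟩ := hxy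
    refine ⟨av (x * y) - a, b'' - b', ?_⟩
    unfold Rel
    calc w * c ^ (b + a') * w = c ^ (-a) * ((c ^ a * w * c ^ b) * (c ^ a' * w * c ^ b')) * c ^ (-b') := by
          group
      _ = c ^ (-a) * (x * y) * c ^ (-b') := by rw [hx, hy]
      _ = c ^ (-a) * (c ^ (av (x * y)) * w * c ^ b'') * c ^ (-b') := by rw [← h]
      _ = c ^ (av (x * y) - a) * w * c ^ (b'' - b') := by group
  have hD2 := hVV _ hD
  have hD3 := hVV _ hD2
  obtain ⟨x, ⟨hx1, hx2⟩, hx3⟩ := ((hD.and hD2).and hD3).exists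
  obtain ⟨b, hxb⟩ := hx1
  have claim1 : ∀ᶠ n in (r : Filter ℤ), ∃ P Q, Rel c w (b + n) P Q := by
    rw [hrV]
    filter_upwards [hD, hx2] with y hy1 hy2
    obtain ⟨b', hyb⟩ := hy1
    exact hang x y _ _ _ _ hxb hyb hy2
  have claim1' := hnorm b claim1
  have claim1'' := (hrV _).1 claim1'
  have claim2 : ∀ᶠ y in (V : Filter G), Commute w (ph c (b + av y) w) := by
    filter_upwards [hD, claim1'', hD2, hx3] with y hy1 hy2 hy3 hy4
    obtain ⟨b', hyb⟩ := hy1
    obtain ⟨P, hP⟩ := hy2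
    have hP' : Rel c w (b + av y) P ((b + av y) - P) := Rel_iff_ph.2 hP
    have hxy : x * y = c ^ (av x + P) * w * c ^ ((b + av y) - P + b') := by
      unfold Rel at hP'
      calc x * y = (c ^ (av x) * w * c ^ b) * (c ^ (av y) * w * c ^ b') := by rw [← hxb, ← hyb]
        _ = c ^ (av x) * (w * c ^ (b + av y) * w) * c ^ b' := by group
        _ = c ^ (av x) * (c ^ P * w * c ^ ((b + av y) - P)) * c ^ b' := by rw [hP']
        _ = c ^ (av x + P) * w * c ^ ((b + av y) - P + b') := by group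
    have c1 : ∀ᶠ n in (r : Filter ℤ), ∃ P Q, Rel c w (b' + n) P Q := by
      rw [hrV]
      filter_upwards [hD, hy3] with z hz1 hz2
      obtain ⟨b'', hzb⟩ := hz1
      exact hang y z _ _ _ _ hyb hzb hz2
    have c2 : ∀ᶠ n in (r : Filter ℤ), ∃ P' Q', Rel c w (((b + av y) - P + b') + n) P' Q' := by
      rw [hrV]
      filter_upwards [hD, hy4] with z hz1 hz2
      obtain ⟨b'', hzb⟩ := hz1
      exact hang (x * y) z _ _ _ _ hxy hzb hz2
    obtain ⟨n, ⟨P2, h2⟩, ⟨P3, h3⟩⟩ := ((hnorm _ c1).and (hnorm _ c2)).exists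
    have h4 := comm_of_two h2 h3
    rw [show (b + av y) - P + b' + n = (b' + n) + ((b + av y) - P) by ring,
      ← ph_ph c (b' + n) ((b + av y) - P) w, ph_commute] at h4
    have h5 : Commute (ph c P w) (ph c P (ph c ((b + av y) - P) w)) := (ph_commute c P).2 h4
    rw [ph_ph, show P + ((b + av y) - P) = b + av y by ring, ← hP] at h5
    -- Commute (w * u) u → Commute w u
    have h6 : w * ph c (b + av y) w * ph c (b + av y) w
        = ph c (b + av y) w * w * ph c (b + av y) w := by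
      have := h5.eq
      simpa only [mul_assoc] using this
    exact mul_right_cancel h6
  refine ⟨w, p, r.map (fun n => b + n), hwreg, ?_, hp, ?_⟩
  · intro Φ
    rw [Ultrafilter.coe_map, eventually_map, hpr]
    apply eventually_congr
    refine Eventually.of_forall fun m => ?_
    rw [eventually_map]
    apply eventually_congr
    refine Eventually.of_forall fun n => ?_
    rw [show b + (m + n) = m + (b + n) by ring]
  · rw [Ultrafilter.coe_map, eventually_map]
    have h7 : ∀ᶠ n in (r : Filter ℤ), Commute w (ph c (b + n) w) := (hrV _).2 claim2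
    filter_upwards [claim1', h7] with n hn1 hn2
    obtain ⟨P, hP⟩ := hn1
    exact ⟨P, hP, hn2⟩

end Pool.Agent.H42
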