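import Mathlib
import Pool.Agent.H42.DCMain

set_option autoImplicit false

namespace Pool.Agent.H42

open Filter

variable {G : Type*} [Group G]

/-- largeness: some translate is in the ultrafilter -/
def Large (r : Ultrafilter ℤ) (A : Set ℤ) : Prop := ∃ b : ℤ, ∀ᶠ n in (r : Filter ℤ), b + n ∈ A

lemma Large.mono {r : Ultrafilter ℤ} {A B : Set ℤ} (h : Large r A) (hAB : A ⊆ B) : Large r B := by
  obtain ⟨b, hb⟩ := h
  exact ⟨b, hb.mono fun n hn => hAB hn⟩

lemma Large.nonempty {r : Ultrafilter ℤ} {A : Set ℤ} (h : Large r A) : A.Nonempty := by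
  obtain ⟨b, hb⟩ := h
  obtain ⟨n, hn⟩ := hb.exists
  exact ⟨_, hn⟩

lemma exists_refine {ι : Type*} (r : Ultrafilter ℤ) {T : Set ι} (hT : T.Finite)
    (R : ι → ℤ → ℤ → Prop) {A : Set ℤ} (hA : Large r A) :
    ∃ A' ⊆ A, Large r A' ∧ ∀ t ∈ T, (∃ s, ∀ k ∈ A', R t s k) ∨
      (∀ s, ¬ Large r {k | k ∈ A' ∧ R t s k}) := by
  induction T, hT using Set.Finite.induction_on with
  | empty => exact ⟨A, subset_rfl, hA, by simp⟩
  | @insert t T _ _ ih =>
    obtain ⟨A', hA', hL, hdich⟩ := ih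
    by_cases h : ∃ s, Large r {k | k ∈ A' ∧ R t s k}
    · obtain ⟨s, hs⟩ := h
      refine ⟨{k | k ∈ A' ∧ R t s k}, fun k hk => hA' hk.1, hs, ?_⟩
      intro t' ht'
      rcases ht' with rfl | ht'
      · exact Or.inl ⟨s, fun k hk => hk.2⟩
      · rcases hdich t' ht' with ⟨s', hs'⟩ | hn
        · exact Or.inl ⟨s', fun k hk => hs' k hk.1⟩
        · exact Or.inr fun s' hL' => hn s' (hL'.mono fun k hk => ⟨hk.1.1, hk.2⟩)
    · refine ⟨A', hA', hL, ?_⟩
      intro t' ht'
      rcases ht' with rfl | ht'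
      · exact Or.inr fun s hs => h ⟨s, hs⟩
      · exact hdich t' ht'

lemma exists_abelian {c : G} {T : Set G} (hTf : T.Finite)
    (hT : ∀ g : G, ∃ t ∈ T, ∃ a b : ℤ, g = c ^ a * t * c ^ b)
    {w : G} {p r : Ultrafilter ℤ} (hc : ∀ n : ℤ, c ^ n = 1 → n = 0)
    (hpr : ∀ Φ : ℤ → Prop, (∀ᶠ n in (r : Filter ℤ), Φ n) ↔
        ∀ᶠ m in (p : Filter ℤ), ∀ᶠ n in (r : Filter ℤ), Φ (m + n))
    (hp : ∀ m : ℤ, ∀ᶠ n in (p : Filter ℤ), n ≠ m)
    (hw : ∀ᶠ k in (r : Filter ℤ), ∃ P : ℤ, w * ph c k w = ph c P w ∧ Commute w (ph c k w)) :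
    ∃ m : ℤ, m ≠ 0 ∧ (∀ i : ℤ, Commute w (ph c (m * i) w)) ∧
      ∃ S : Set G, S.Finite ∧ ∀ x ∈ Subgroup.closure (Set.range fun i : ℤ => ph c (m * i) w),
        ∃ g ∈ S, ∃ j : ℤ, x = ph c j g := by
  classical
  set A₁ : Set ℤ := {k | ∃ P : ℤ, w * ph c k w = ph c P w ∧ Commute w (ph c k w)} with hA₁
  have hL1 : Large r A₁ := ⟨0, by
    filter_upwards [hw] with n hn
    rw [zero_add]
    exact hn⟩
  set P : ℤ → ℤ := fun k => if h : ∃ P : ℤ, w * ph c k w = ph c P w ∧ Commute w (ph c k w)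
    then h.choose else 0 with hPdef
  have hP : ∀ k ∈ A₁, w * ph c k w = ph c (P k) w ∧ Commute w (ph c k w) := by
    intro k hk
    have h : ∃ P : ℤ, w * ph c k w = ph c P w ∧ Commute w (ph c k w) := hk
    have : P k = h.choose := by simp only [hPdef]; rw [dif_pos h]
    rw [this]
    exact h.choose_spec
  set Y : ℤ → G → Prop := fun k y => y * ph c k y = ph c (P k) y with hY
  -- basic facts
  have Y1 : ∀ k j y, Y k y → Y k (ph c j y) := by
    intro k j y h
    simp only [hY] at h ⊢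
    rw [ph_ph, add_comm k j, ← ph_ph, ← ph_mul, h, ph_ph, ph_ph, add_comm]
  have Y2 : ∀ (k : ℤ) (t : G) (s s' : ℤ), Y k (t * c ^ s) → Y k (t * c ^ s') → s = s' := by
    intro k t s s' h h'
    simp only [hY, ph] at h h'
    have e1 : t * c ^ s * (c ^ k * (t * c ^ s) * (c ^ k)⁻¹) * c ^ (P k) * c ^ (s' - s)
        = c ^ (P k) * (t * c ^ s) * c ^ (s' - s) := by rw [h]; group
    have e2 : t * c ^ s' * (c ^ k * (t * c ^ s') * (c ^ k)⁻¹) * c ^ (P k)
        = c ^ (P k) * (t * c ^ s') := by rw [h']; group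
    have e3 : c ^ (P k) * (t * c ^ s) * c ^ (s' - s) = c ^ (P k) * (t * c ^ s') := by group
    have e4 := (e1.trans e3).trans e2.symm
    have e5 : (t * c ^ (s + k) * t) * c ^ (s' - k + P k)
        = (t * c ^ (s' + k) * t) * c ^ (s' - k + P k) := by
      calc (t * c ^ (s + k) * t) * c ^ (s' - k + P k)
          = t * c ^ s * (c ^ k * (t * c ^ s) * (c ^ k)⁻¹) * c ^ (P k) * c ^ (s' - s) := by group
        _ = t * c ^ s' * (c ^ k * (t * c ^ s') * (c ^ k)⁻¹) * c ^ (P k) := e4
        _ = (t * c ^ (s' + k) * t) * c ^ (s' - k + P k) := by group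
    have e6 := mul_left_cancel (mul_right_cancel (mul_right_cancel e5))
    have e7 : c ^ (s - s') = 1 := by
      have : c ^ (s - s') = c ^ (s + k) * (c ^ (s' + k))⁻¹ := by group
      rw [this, e6]; simp
    have := hc _ e7
    omega
  have Y3 : ∀ k y y', Y k y → Y k y' → (Y k (y * y') ↔ Commute y' (ph c k y)) := by
    intro k y y' h h'
    simp only [hY] at h h' ⊢
    rw [ph_mul, ph_mul, ← h, ← h']
    constructor
    · intro e
      have e1 : y * (y' * ph c k y) * ph c k y' = y * (ph c k y * y') * ph c k y' := by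
        simpa only [mul_assoc] using e
      exact mul_left_cancel (mul_right_cancel e1)
    · intro e
      have e1 := e.eq
      calc y * y' * (ph c k y * ph c k y') = y * (y' * ph c k y) * ph c k y' := by
            simp only [mul_assoc]
        _ = y * (ph c k y * y') * ph c k y' := by rw [e1]
        _ = y * ph c k y * (y' * ph c k y') := by simp only [mul_assoc]
  obtain ⟨A, hAA, hL, hdich⟩ := exists_refine r hTf (fun t s k => Y k (t * c ^ s)) hL1
  have hdec : ∀ y : G, ∃ t ∈ T, ∃ a s : ℤ, y = ph c a (t * c ^ s) := by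
    intro y
    obtain ⟨t, ht, a, b, h⟩ := hT y
    refine ⟨t, ht, a, a + b, ?_⟩
    rw [h]; unfold ph; group
  have Y1' : ∀ k j y, Y k (ph c j y) → Y k y := by
    intro k j y h
    have := Y1 k (-j) _ h
    rwa [ph_ph, neg_add_cancel, ph_zero] at this
  have Y5 : ∀ y, Large r {k | k ∈ A ∧ Y k y} → ∀ k ∈ A, Y k y := by
    intro y hy
    obtain ⟨t, ht, a, s, rfl⟩ := hdec y
    have hy' : Large r {k | k ∈ A ∧ Y k (t * c ^ s)} := hy.mono fun k hk => ⟨hk.1, Y1' _ _ _ hk.2⟩
    rcases hdich t ht with ⟨s', hs'⟩ | hn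
    · obtain ⟨k, hk⟩ := hy'.nonempty
      have : s = s' := Y2 k t s s' hk.2 (hs' k hk.1)
      subst this
      intro k hk
      exact Y1 _ _ _ (hs' k hk)
    · exact absurd hy' (hn s)
  -- the finite set of representatives
  have Y6 : ∃ S : Set G, S.Finite ∧ ∀ y, (∀ k ∈ A, Y k y) → ∃ g ∈ S, ∃ j : ℤ, y = ph c j g := by
    refine ⟨(fun t => if h : ∃ s : ℤ, ∀ k ∈ A, Y k (t * c ^ s) then t * c ^ h.choose else 1) '' T,
      hTf.image _, ?_⟩
    intro y hy
    obtain ⟨t, ht, a, s, rfl⟩ := hdec y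
    have h1 : ∀ k ∈ A, Y k (t * c ^ s) := fun k hk => Y1' _ _ _ (hy k hk)
    have h : ∃ s : ℤ, ∀ k ∈ A, Y k (t * c ^ s) := ⟨s, h1⟩
    refine ⟨_, ⟨t, ht, rfl⟩, a, ?_⟩
    simp only []
    rw [dif_pos h]
    obtain ⟨k, hk⟩ := hL.nonempty
    rw [Y2 k t s h.choose (h1 k hk) (h.choose_spec k hk)]
  -- choice of m
  obtain ⟨m, hm0, hAp, hAm⟩ : ∃ m : ℤ, m ≠ 0 ∧ Large r {k | k ∈ A ∧ k + m ∈ A} ∧
      Large r {k | k ∈ A ∧ k - m ∈ A} := by
    obtain ⟨b, hb⟩ := hL
    have h1 := (hpr _).1 hb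
    obtain ⟨m, hm, hm0⟩ := (h1.and (hp 0)).exists
    refine ⟨m, hm0, ⟨b, ?_⟩, ⟨b + m, ?_⟩⟩
    · filter_upwards [hb, hm] with n hn1 hn2
      exact ⟨hn1, by rwa [show b + n + m = b + (m + n) by ring]⟩
    · filter_upwards [hb, hm] with n hn1 hn2
      exact ⟨by rwa [show b + m + n = b + (m + n) by ring],
        by rwa [show b + m + n - m = b + n by ring]⟩
  have P1 : ∀ y y', (∀ k ∈ A, Y k y) → (∀ k ∈ A, Y k y') → (∀ k ∈ A, Y k (y * y')) →
      (∀ k ∈ A, Y k (ph c m y * y')) ∧ (∀ k ∈ A, Y k (ph c (-m) y * y')) := by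
    intro y y' h h' hh
    constructor
    · apply Y5
      refine hAp.mono ?_
      rintro k ⟨hk, hkm⟩
      refine ⟨hk, ?_⟩
      rw [Y3 k _ _ (Y1 _ _ _ (h k hk)) (h' k hk), ph_ph]
      exact (Y3 _ _ _ (h _ hkm) (h' _ hkm)).1 (hh _ hkm)
    · apply Y5
      refine hAm.mono ?_
      rintro k ⟨hk, hkm⟩
      refine ⟨hk, ?_⟩
      rw [Y3 k _ _ (Y1 _ _ _ (h k hk)) (h' k hk), ph_ph]
      exact (Y3 _ _ _ (h _ hkm) (h' _ hkm)).1 (hh _ hkm)
  have hwY : ∀ k ∈ A, Y k w := fun k hk => (hP k (hAA hk)).1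
  have hwwY : ∀ k ∈ A, Y k (w * w) := fun k hk =>
    (Y3 k _ _ (hwY k hk) (hwY k hk)).2 (hP k (hAA hk)).2
  have P2 : ∀ i : ℤ, ∀ k ∈ A, Y k (ph c (m * i) w * w) := by
    intro i
    induction i using Int.induction_on with
    | zero => simpa [ph_zero] using hwwY
    | succ i ih =>
      have := (P1 _ _ (fun k hk => Y1 k (m * i) _ (hwY k hk)) hwY ih).1
      rwa [ph_ph, show m + m * i = m * (i + 1) by ring] at this
    | pred i ih =>
      have := (P1 _ _ (fun k hk => Y1 k (m * (-i)) _ (hwY k hk)) hwY ih).2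
      rwa [ph_ph, show -m + m * (-i) = m * (-i - 1) by ring] at this
  have P3 : ∀ y, (∀ k ∈ A, Y k y) → Commute y (ph c m y) := by
    intro y hy
    obtain ⟨k, hk, hkm⟩ := hAp.nonempty
    have h1 : Y k (y * ph c (k + m) y) := by
      have h2 : y * ph c (k + m) y = ph c (P (k + m)) y := hy _ hkm
      rw [h2]
      exact Y1 _ _ _ (hy k hk)
    have h3 := (Y3 k _ _ (hy k hk) (Y1 _ _ _ (hy k hk))).1 h1
    rw [← ph_ph c k m, ph_commute] at h3
    exact h3.symm
  have P4 : ∀ i : ℕ, ∀ j ≤ i, Commute w (ph c (m * j) w) := by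
    intro i
    induction i with
    | zero =>
      intro j hj
      have : j = 0 := by omega
      subst this
      simp [ph_zero]
    | succ i ih =>
      intro j hj
      rcases Nat.lt_or_ge j (i + 1) with hlt | hge
      · exact ih j (by omega)
      have hji : j = i + 1 := by omega
      subst hji
      rcases Nat.eq_zero_or_pos i with h0 | hpos
      · subst h0
        have := P3 w hwY
        simpa using this
      -- general commutation for index differences ≤ i
      have hcomm : ∀ a b : ℤ, ∀ d : ℕ, d ≤ i → b = a + d →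
          Commute (ph c (m * a) w) (ph c (m * b) w) := by
        intro a b d hd hb
        rw [hb, show m * (a + (d : ℤ)) = m * a + m * d by ring, ← ph_ph, ph_commute]
        exact ih d hd
      have h1 := P3 _ (P2 i)
      rw [ph_mul, ph_ph, show m + m * (i : ℤ) = m * ((i : ℤ) + 1) by ring] at h1
      -- a = v_{mi}, b = w, x = v_{m(i+1)}, y = v_m
      set a := ph c (m * (i : ℤ)) w with ha
      set x := ph c (m * ((i : ℤ) + 1)) w with hx
      set y := ph c m w with hy
      have hab : Commute a w := (ih i le_rfl).symm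
      have hax : Commute a x := hcomm i (i + 1) 1 (by omega) (by simp)
      have hay : Commute a y := by
        have := hcomm 1 i (i - 1) (by omega) (by push_cast [Nat.cast_sub hpos]; ring)
        simpa using this.symm
      have hyw : Commute y w := by
        have := ih 1 (by omega)
        simpa using this.symm
      have hyx : Commute y x := by
        have := hcomm 1 (i + 1) i le_rfl (by ring)
        simpa using this
      have e := h1.eq
      -- a * w * (x * y) = x * y * (a * w)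
      have e2 : a * (w * x * y) = a * (x * w * y) := by
        calc a * (w * x * y) = a * w * (x * y) := by simp only [mul_assoc]
          _ = x * y * (a * w) := e
          _ = x * (y * a) * w := by simp only [mul_assoc]
          _ = x * (a * y) * w := by rw [hay.eq]
          _ = (x * a) * (y * w) := by simp only [mul_assoc]
          _ = (a * x) * (w * y) := by rw [hax.eq, hyw.eq]
          _ = a * (x * w * y) := by simp only [mul_assoc]
      have e3 := mul_right_cancel (mul_left_cancel e2)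
      have : (((i + 1 : ℕ) : ℤ)) = (i : ℤ) + 1 := by push_cast; ring
      rw [this]
      exact e3
  have P4' : ∀ i : ℤ, Commute w (ph c (m * i) w) := by
    intro i
    obtain ⟨n, rfl | rfl⟩ := i.eq_nat_or_neg
    · exact P4 n n le_rfl
    · have h := P4 n n le_rfl
      have h2 := (ph_commute c (m * (-(n : ℤ)))).2 h
      rw [ph_ph, show m * (-(n : ℤ)) + m * n = 0 by ring, ph_zero] at h2
      exact h2.symm
  refine ⟨m, hm0, P4', ?_⟩
  obtain ⟨S, hS, hSY⟩ := Y6
  refine ⟨S, hS, fun x hx => hSY x ?_⟩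
  intro k hk
  -- N commutes with φ^k(N)
  have Q1 : ∀ i j : ℤ, Commute (ph c (m * j) w) (ph c k (ph c (m * i) w)) := by
    intro i j
    have h1 := Y1 k (m * j) _ (P2 (i - j) k hk)
    rw [ph_mul, ph_ph, show m * j + m * (i - j) = m * i by ring] at h1
    exact (Y3 k _ _ (Y1 _ _ _ (hwY k hk)) (Y1 _ _ _ (hwY k hk))).1 h1
  have Q2 : ∀ x ∈ Subgroup.closure (Set.range fun i : ℤ => ph c (m * i) w),
      ∀ i, Commute x (ph c k (ph c (m * i) w)) := by
    intro x hx
    induction hx using Subgroup.closure_induction with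
    | mem x hx =>
      obtain ⟨j, rfl⟩ := hx
      intro i
      exact Q1 i j
    | one => intro i; exact Commute.one_left _
    | mul x y _ _ hx hy => intro i; exact (hx i).mul_left (hy i)
    | inv x _ hx => intro i; exact (hx i).inv_left
  have Q3 : ∀ y ∈ Subgroup.closure (Set.range fun i : ℤ => ph c (m * i) w),
      ∀ x ∈ Subgroup.closure (Set.range fun i : ℤ => ph c (m * i) w), Commute x (ph c k y) := by
    intro y hy
    induction hy using Subgroup.closure_induction with
    | mem y hy =>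
      obtain ⟨j, rfl⟩ := hy
      intro x hx
      exact Q2 x hx j
    | one => intro x _; rw [ph_one]; exact Commute.one_right _
    | mul y z _ _ hy hz => intro x hx; rw [ph_mul]; exact (hy x hx).mul_right (hz x hx)
    | inv y _ hy => intro x hx; rw [ph_inv]; exact (hy x hx).inv_right
  induction hx using Subgroup.closure_induction with
  | mem x hx =>
    obtain ⟨i, rfl⟩ := hx
    exact Y1 _ _ _ (hwY k hk)
  | one => simp [hY, ph_one]
  | mul x y hx' hy' hx hy => exact (Y3 k _ _ hx hy).2 (Q3 x hx' y hy')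
  | inv x hx' hx =>
    have h1 := Q3 x hx' x hx'
    simp only [hY] at hx ⊢
    rw [ph_inv, ph_inv, ← hx, mul_inv_rev, ← mul_inv_rev, ← mul_inv_rev, h1.eq]

end Pool.Agent.H42
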