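import Mathlib
import Pool.Agent.H42.DCOrbit

set_option autoImplicit false

namespace Pool.Agent.H42

open Filter

variable {G : Type*} [Group G]

/-- A finitely generated commutative group in which every `2^a`-th power is the square of a
`2^a`-th power is finite. -/
lemma finite_of_div (A : Type*) [AddCommGroup A] [Module.Finite ℤ A] (a : ℕ)
    (h : ∀ x : A, ∃ z : A, (2 ^ a : ℤ) • x = (2 : ℤ) • ((2 ^ a : ℤ) • z)) : Finite A := by
  set D : Submodule ℤ A := LinearMap.range (LinearMap.lsmul ℤ A (2 ^ a : ℤ)) with hD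
  have hfg : D.FG := by
    rw [hD, LinearMap.range_eq_map]
    exact Submodule.FG.map _ Module.Finite.fg_top
  have hle : D ≤ (Ideal.span {(2 : ℤ)}) • D := by
    rintro _ ⟨x, rfl⟩
    obtain ⟨z, hz⟩ := h x
    have : (LinearMap.lsmul ℤ A (2 ^ a : ℤ)) x = (2 : ℤ) • ((LinearMap.lsmul ℤ A (2 ^ a : ℤ)) z) := hz
    rw [this]
    exact Submodule.smul_mem_smul (Ideal.mem_span_singleton_self 2) ⟨z, rfl⟩
  obtain ⟨r, hr1, hr2⟩ := Submodule.exists_sub_one_mem_and_smul_eq_zero_of_fg_of_le_smul _ D hfg hle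
  have hr0 : r ≠ 0 := by
    rintro rfl
    rw [Ideal.mem_span_singleton] at hr1
    omega
  have htors : ∀ x : A, (r * 2 ^ a) • x = 0 := by
    intro x
    rw [mul_smul]
    exact hr2 _ ⟨x, rfl⟩
  have : IsAddTorsion A := by
    intro x
    rw [isOfFinAddOrder_iff_zsmul_eq_zero]
    exact ⟨r * 2 ^ a, by positivity, htors x⟩
  have hfg2 : AddGroup.FG A := by
    exact (Module.Finite.iff_addGroup_fg).1 inferInstance
  exact AddCommGroup.finite_of_fg_isAddTorsion A this

/-- Final contradiction: the group generated by the commuting, pairwise distinct conjugates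
`ph c (m * i) w` cannot be covered by finitely many `ph`-orbits. -/
lemma no_abelian {c w : G} (hinj : ∀ i j : ℤ, ph c i w = ph c j w → i = j)
    {m : ℤ} (hm : m ≠ 0) (hcomm : ∀ i : ℤ, Commute w (ph c (m * i) w))
    {S : Set G} (hS : S.Finite)
    (hcov : ∀ x ∈ Subgroup.closure (Set.range fun i : ℤ => ph c (m * i) w),
        ∃ g ∈ S, ∃ j : ℤ, x = ph c j g) : False := by
  classical
  set e : ℤ → G := fun i => ph c (m * i) w with he
  set N := Subgroup.closure (Set.range e) with hN
  have heN : ∀ i, e i ∈ N := fun i => Subgroup.subset_closure ⟨i, rfl⟩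
  have einj : ∀ i j, e i = e j → i = j := by
    intro i j h
    have := hinj _ _ h
    exact mul_left_cancel₀ hm this
  have esh : ∀ s i, ph c (m * s) (e i) = e (i + s) := by
    intro s i
    simp only [he]
    rw [ph_ph]
    congr 1
    ring
  have ecomm : ∀ i j, Commute (e i) (e j) := by
    intro i j
    have h := (ph_commute c (m * i)).2 (hcomm (j - i))
    rw [ph_ph, show m * i + m * (j - i) = m * j by ring] at h
    exact h
  -- pigeonhole
  have pig : ∀ y : ℕ → G, (∀ n, y n ∈ N) → ∃ n n' : ℕ, n < n' ∧ ∃ s : ℤ, y n' = ph c (m * s) (y n) := by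
    intro y hy
    choose g hg j hj using fun n => hcov _ (hy n)
    have : Finite S := hS.to_subtype
    have : NeZero m.natAbs := ⟨by simpa using hm⟩
    obtain ⟨x, x', hne, hxx⟩ := Finite.exists_ne_map_eq_of_infinite
      (fun n : ℕ => ((⟨g n, hg n⟩ : S), ((j n : ℤ) : ZMod m.natAbs)))
    have h1 : g x = g x' := by
      have := congrArg Prod.fst hxx
      simpa using this
    have h2 : ((j x : ℤ) : ZMod m.natAbs) = ((j x' : ℤ) : ZMod m.natAbs) := congrArg Prod.snd hxx
    rw [ZMod.intCast_eq_intCast_iff_dvd_sub] at h2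
    have h3 : m ∣ j x' - j x := by
      rwa [Int.natCast_natAbs, abs_dvd] at h2
    obtain ⟨s, hs⟩ := h3
    rcases lt_or_gt_of_ne hne with hlt | hlt
    · refine ⟨x, x', hlt, s, ?_⟩
      rw [hj x', hj x, ph_ph, h1]
      congr 1
      linarith
    · refine ⟨x', x, hlt, -s, ?_⟩
      rw [hj x', hj x, ph_ph, h1]
      congr 1
      linarith
  -- first relation
  obtain ⟨a, a', ha, haa, s, hrel⟩ : ∃ a a' : ℤ, 0 < a ∧ a < a' ∧ ∃ s : ℤ,
      e 0 * e a' = e s * e (s + a) := by
    obtain ⟨n, n', hlt, s, h⟩ := pig (fun n => e 0 * e (n + 1)) (fun n => N.mul_mem (heN _) (heN _))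
    refine ⟨n + 1, n' + 1, by omega, by omega, s, ?_⟩
    rw [ph_mul, esh, esh] at h
    rw [h, zero_add, add_comm ((n : ℤ) + 1) s]
  have hrel' : ∀ i, e i * e (i + a') = e (i + s) * e (i + s + a) := by
    intro i
    have h := congrArg (ph c (m * i)) hrel
    rw [ph_mul, ph_mul, esh, esh, esh, esh] at h
    rw [zero_add] at h
    rw [show i + a' = a' + i by ring, show i + s = s + i by ring, show s + i + a = s + a + i by ring]
    exact h
  -- upward and downward recursion
  obtain ⟨lo, hi, hlohi, hup, hdown⟩ : ∃ lo hi : ℤ, lo < hi ∧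
      (∀ i, e (i + hi) ∈ Subgroup.closure (e '' {j | i + lo ≤ j ∧ j < i + hi})) ∧
      (∀ i, e (i + lo) ∈ Subgroup.closure (e '' {j | i + lo < j ∧ j ≤ i + hi})) := by
    have hs0 : s ≠ 0 := by
      rintro rfl
      have h := hrel' 0
      simp only [zero_add, add_zero] at h
      have := einj _ _ (mul_left_cancel h)
      omega
    have hsa : s + a ≠ a' := by
      intro hsa
      have h := hrel' 0
      rw [zero_add, zero_add, hsa] at h
      have := einj _ _ (mul_right_cancel h)
      omega
    have mem : ∀ (A : Set ℤ) (x : ℤ), x ∈ A → e x ∈ Subgroup.closure (e '' A) :=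
      fun A x hx => Subgroup.subset_closure ⟨x, hx, rfl⟩
    refine ⟨min 0 s, max a' (s + a), by
      rcases min_choice 0 s with h1 | h1 <;> rcases max_choice a' (s + a) with h2 | h2 <;> omega, ?_, ?_⟩
    · intro i
      rcases lt_or_gt_of_ne hsa with h1 | h1
      · -- s + a < a'
        have hmax : max a' (s + a) = a' := max_eq_left h1.le
        rw [hmax]
        have e1 : e (i + a') = (e i)⁻¹ * (e (i + s) * e (i + s + a)) := by
          rw [← hrel' i]; simp
        rw [e1]
        refine Subgroup.mul_mem _ (Subgroup.inv_mem _ (mem _ _ ?_)) (Subgroup.mul_mem _ (mem _ _ ?_) (mem _ _ ?_))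
        · exact ⟨by have := min_le_left 0 s; omega, by omega⟩
        · exact ⟨by have := min_le_right 0 s; omega, by omega⟩
        · exact ⟨by have := min_le_right 0 s; omega, by omega⟩
      · have hmax : max a' (s + a) = s + a := max_eq_right h1.le
        rw [hmax]
        have e1 : e (i + (s + a)) = (e (i + s))⁻¹ * (e i * e (i + a')) := by
          rw [hrel' i, ← add_assoc]; simp
        rw [e1]
        refine Subgroup.mul_mem _ (Subgroup.inv_mem _ (mem _ _ ?_)) (Subgroup.mul_mem _ (mem _ _ ?_) (mem _ _ ?_))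
        · exact ⟨by have := min_le_right 0 s; omega, by omega⟩
        · exact ⟨by have := min_le_left 0 s; omega, by omega⟩
        · exact ⟨by have := min_le_left 0 s; omega, by omega⟩
    · intro i
      rcases lt_or_gt_of_ne hs0 with h1 | h1
      · -- s < 0
        have hmin : min 0 s = s := min_eq_right h1.le
        rw [hmin]
        have e1 : e (i + s) = (e i * e (i + a')) * (e (i + s + a))⁻¹ := by
          rw [hrel' i]; simp
        rw [e1]
        refine Subgroup.mul_mem _ (Subgroup.mul_mem _ (mem _ _ ?_) (mem _ _ ?_)) (Subgroup.inv_mem _ (mem _ _ ?_))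
        · exact ⟨by omega, by have := le_max_left a' (s + a); omega⟩
        · exact ⟨by omega, by have := le_max_left a' (s + a); omega⟩
        · exact ⟨by omega, by have := le_max_right a' (s + a); omega⟩
      · have hmin : min 0 s = 0 := min_eq_left h1.le
        rw [hmin, add_zero]
        have e1 : e i = (e (i + s) * e (i + s + a)) * (e (i + a'))⁻¹ := by
          rw [← hrel' i]; simp
        rw [e1]
        refine Subgroup.mul_mem _ (Subgroup.mul_mem _ (mem _ _ ?_) (mem _ _ ?_)) (Subgroup.inv_mem _ (mem _ _ ?_))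
        · exact ⟨by omega, by have := le_max_right a' (s + a); omega⟩
        · exact ⟨by omega, by have := le_max_right a' (s + a); omega⟩
        · exact ⟨by omega, by have := le_max_left a' (s + a); omega⟩
  -- finite generation
  set D := hi - lo with hD
  set M := Subgroup.closure (e '' {j | 0 ≤ j ∧ j < D}) with hM
  have hMpos : ∀ n : ℕ, e n ∈ M := by
    intro n
    induction n using Nat.strong_induction_on with
    | _ n ih =>
      by_cases hn : (n : ℤ) < D
      · exact Subgroup.subset_closure ⟨n, ⟨by omega, hn⟩, rfl⟩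
      · have h1 := hup (n - hi)
        rw [show (n : ℤ) - hi + hi = n by ring] at h1
        refine (Subgroup.closure_le _).2 ?_ h1
        rintro _ ⟨j, ⟨hj1, hj2⟩, rfl⟩
        obtain ⟨k, rfl⟩ := Int.eq_ofNat_of_zero_le (show 0 ≤ j by omega)
        exact ih k (by omega)
  have hMneg : ∀ n : ℕ, ∀ i : ℤ, -(n : ℤ) ≤ i → e i ∈ M := by
    intro n
    induction n with
    | zero =>
      intro i hi0
      obtain ⟨k, rfl⟩ := Int.eq_ofNat_of_zero_le (show 0 ≤ i by simpa using hi0)
      exact hMpos k
    | succ n ih =>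
      intro i hi0
      by_cases h : -(n : ℤ) ≤ i
      · exact ih i h
      · have h1 := hdown (i - lo)
        rw [show i - lo + lo = i by ring] at h1
        refine (Subgroup.closure_le _).2 ?_ h1
        rintro _ ⟨j, ⟨hj1, hj2⟩, rfl⟩
        exact ih j (by push_cast at hi0 h; omega)
  have hNM : N = M := by
    apply le_antisymm
    · rw [hN, Subgroup.closure_le]
      rintro _ ⟨i, rfl⟩
      exact hMneg i.natAbs i (by omega)
    · rw [hM]
      apply Subgroup.closure_mono
      rintro _ ⟨i, _, rfl⟩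
      exact ⟨i, rfl⟩
  have hNfg : Group.FG N := by
    rw [Group.fg_iff_subgroup_fg, hNM]
    refine ⟨((Set.finite_Ico (0 : ℤ) D).image e).toFinset, ?_⟩
    rw [hM]
    congr 1
    ext x
    simp [Set.mem_Ico]
  -- commutativity
  have hNcomm : ∀ x y : N, x * y = y * x := by
    have h1 : IsMulCommutative (Subgroup.closure (Set.range e)) :=
      Subgroup.isMulCommutative_closure (by
        rintro _ ⟨i, rfl⟩ _ ⟨j, rfl⟩
        exact (ecomm i j).eq)
    intro x y
    exact h1.is_comm.comm x y
  let instN : CommGroup N := { (inferInstance : Group N) with mul_comm := hNcomm }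
  -- power relation
  obtain ⟨b, b', hbb, s', hrel2⟩ : ∃ b b' : ℕ, b < b' ∧ ∃ s : ℤ,
      e 0 ^ (2 ^ b) = e s ^ (2 ^ b') := by
    obtain ⟨n, n', hlt, s, h⟩ := pig (fun n => e 0 ^ (2 ^ n)) (fun n => N.pow_mem (heN _) _)
    refine ⟨n, n', hlt, -s, ?_⟩
    have h2 := congrArg (ph c (m * (-s))) h
    rw [ph_ph, show m * (-s) + m * s = 0 by ring, ph_zero] at h2
    rw [← h2, ph_pow, esh, zero_add]
  have hrel2' : ∀ i, e i ^ (2 ^ b) = e (i + s') ^ (2 ^ b') := by
    intro i
    have h := congrArg (ph c (m * i)) hrel2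
    rw [ph_pow, ph_pow, esh, esh, zero_add, add_comm] at h
    exact h
  have hdiv : ∀ x : N, ∃ z : N, x ^ (2 ^ b) = z ^ (2 ^ b') := by
    rintro ⟨x, hx⟩
    induction hx using Subgroup.closure_induction with
    | mem x hx =>
      obtain ⟨i, rfl⟩ := hx
      exact ⟨⟨e (i + s'), heN _⟩, Subtype.ext (by simpa using hrel2' i)⟩
    | one => exact ⟨1, Subtype.ext (by simp)⟩
    | mul x y hx hy ihx ihy =>
      obtain ⟨z, hz⟩ := ihx
      obtain ⟨z', hz'⟩ := ihy
      refine ⟨z * z', ?_⟩
      have h1 : (⟨x * y, N.mul_mem hx hy⟩ : N) = (⟨x, hx⟩ : N) * ⟨y, hy⟩ := rfl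
      rw [h1, mul_pow, mul_pow, hz, hz']
    | inv x hx ih =>
      obtain ⟨z, hz⟩ := ih
      refine ⟨z⁻¹, ?_⟩
      have h1 : (⟨x⁻¹, N.inv_mem hx⟩ : N) = (⟨x, hx⟩ : N)⁻¹ := rfl
      rw [h1, inv_pow, inv_pow, hz]
  have hfin : Finite (Additive N) := by
    have : Module.Finite ℤ (Additive N) := Module.Finite.iff_addGroup_fg.2 inferInstance
    apply finite_of_div (Additive N) b
    intro x
    obtain ⟨z, hz⟩ := hdiv (Additive.toMul x)
    refine ⟨Additive.ofMul (z ^ (2 ^ (b' - b - 1))), ?_⟩
    apply Additive.toMul.injective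
    have h2 : (2 : ℕ) ^ (b' - b - 1) * (2 ^ b * 2) = 2 ^ b' := by
      rw [← pow_succ, ← pow_add]
      congr 1
      omega
    have h3 : (Additive.toMul x) ^ (2 ^ b) = ((z ^ (2 ^ (b' - b - 1))) ^ (2 ^ b)) ^ 2 := by
      rw [hz, ← pow_mul, ← pow_mul, h2]
    rw [toMul_zsmul, toMul_zsmul, toMul_zsmul]
    simp only [toMul_ofMul]
    exact_mod_cast h3
  have hfinN : Finite N := hfin
  have : Finite ℤ := Finite.of_injective (fun i : ℤ => (⟨e i, heN i⟩ : N)) (by
    intro i j h
    exact einj i j (congrArg Subtype.val h))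
  exact not_finite ℤ

/-- A group which is a finite union of double cosets of a cyclic subgroup `⟨c⟩` contains
`⟨c⟩` with finite index. -/
theorem finite_of_double_cosets (c : G) {T : Set G} (hTf : T.Finite)
    (hT : ∀ g : G, ∃ t ∈ T, ∃ a b : ℤ, g = c ^ a * t * c ^ b) :
    Finite (G ⧸ Subgroup.zpowers c) := by
  classical
  by_cases hc : ∀ n : ℤ, c ^ n = 1 → n = 0
  · by_contra hinf
    rw [not_finite_iff_infinite] at hinf
    obtain ⟨w, p, r, hw, hpr, hp, hwr⟩ := exists_main_data hc hTf hT hinf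
    obtain ⟨m, hm, hcomm, S, hS, hcov⟩ := exists_abelian hTf hT hc hpr hp hwr
    refine no_abelian (c := c) (w := w) ?_ hm hcomm hS hcov
    intro i j h
    unfold ph at h
    have h2 : w * c ^ (j - i) = c ^ (j - i) * w := by
      have h3 : c ^ (-i) * (c ^ i * w * (c ^ i)⁻¹) * c ^ j = c ^ (-i) * (c ^ j * w * (c ^ j)⁻¹) * c ^ j := by
        rw [h]
      calc w * c ^ (j - i) = c ^ (-i) * (c ^ i * w * (c ^ i)⁻¹) * c ^ j := by group
        _ = c ^ (-i) * (c ^ j * w * (c ^ j)⁻¹) * c ^ j := h3
        _ = c ^ (j - i) * w := by group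
    have := hw _ _ h2
    omega
  · push Not at hc
    obtain ⟨n, hn, hn0⟩ := hc
    have hfo : IsOfFinOrder c := isOfFinOrder_iff_zpow_eq_one.2 ⟨n, hn0, hn⟩
    have hz : (Subgroup.zpowers c : Set G).Finite := by
      have : Finite (Subgroup.zpowers c) := hfo.finite_zpowers
      exact Set.toFinite _
    have hG : (Set.univ : Set G).Finite := by
      refine ((hz.mul hTf).mul hz).subset ?_
      intro g _
      obtain ⟨t, ht, a, b, rfl⟩ := hT g
      exact Set.mul_mem_mul (Set.mul_mem_mul ⟨a, rfl⟩ ht) ⟨b, rfl⟩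
    have : Finite G := Set.finite_univ_iff.1 hG
    infer_instance

end Pool.Agent.H42
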